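import Mathlib

/-!
Exact determination of the `t ≥ 2` dividing the complete tripartite graph `K(m,1,1)`.
-/

namespace Pool.Agent.Results.MP_351560_co.Book

open Finset

/-- The part of a vertex of the complete tripartite graph. -/
def part {m n s : ℕ} : Fin m ⊕ Fin n ⊕ Fin s → Fin 3
  | Sum.inl _ => 0
  | Sum.inr (Sum.inl _) => 1
  | Sum.inr (Sum.inr _) => 2

/-- The complete tripartite graph `K(m,n,s)`. -/
def K (m n s : ℕ) : SimpleGraph (Fin m ⊕ Fin n ⊕ Fin s) where
  Adj a b := part a ≠ part b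
  symm := ⟨fun _ _ h => h.symm⟩
  loopless := ⟨fun _ h => h rfl⟩

/-- `G` has an isomorphic factorisation into `t` factors. -/
def Divisible {V : Type} (G : SimpleGraph V) (t : ℕ) : Prop :=
  ∃ F : Fin t → SimpleGraph V, (∀ i, F i ≤ G) ∧ (∀ a b, G.Adj a b → ∃! i, (F i).Adj a b) ∧
    ∀ i j, Nonempty (F i ≃g F j)

abbrev V (m : ℕ) := Fin m ⊕ Fin 1 ⊕ Fin 1

abbrev u (m : ℕ) : V m := Sum.inr (Sum.inl 0)
abbrev v (m : ℕ) : V m := Sum.inr (Sum.inr 0)

open Classical in
noncomputable def A {m : ℕ} (G : SimpleGraph (V m)) (x y : V m) : ℤ := if G.Adj x y then 1 else 0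

noncomputable def deg {m : ℕ} (G : SimpleGraph (V m)) (x : V m) : ℤ := ∑ y, A G x y

theorem A_symm {m : ℕ} (G : SimpleGraph (V m)) (x y : V m) : A G x y = A G y x := by
  unfold A
  by_cases h : G.Adj x y
  · rw [if_pos h, if_pos h.symm]
  · rw [if_neg h, if_neg (fun hh => h hh.symm)]

theorem A_le {m : ℕ} (G : SimpleGraph (V m)) (x y : V m) : A G x y ≤ 1 := by
  unfold A; split_ifs <;> simp

theorem A_zero {m : ℕ} {G : SimpleGraph (V m)} {x y : V m} (h : ¬ G.Adj x y) : A G x y = 0 := by
  unfold A; simp [h]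

theorem deg_iso {m : ℕ} {G H : SimpleGraph (V m)} (φ : G ≃g H) (x : V m) :
    deg H (φ x) = deg G x := by
  unfold deg
  rw [← Equiv.sum_comp φ.toEquiv]
  apply Finset.sum_congr rfl
  intro y _
  unfold A
  have : H.Adj (φ x) (φ.toEquiv y) ↔ G.Adj x y := φ.map_rel_iff
  by_cases h : G.Adj x y
  · rw [if_pos h, if_pos (this.mpr h)]
  · rw [if_neg h, if_neg (fun hh => h (this.mp hh))]

noncomputable def p {m : ℕ} (G : SimpleGraph (V m)) : ℤ := ∑ w : Fin m, A G (u m) (Sum.inl w)
noncomputable def q {m : ℕ} (G : SimpleGraph (V m)) : ℤ := ∑ w : Fin m, A G (v m) (Sum.inl w)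

theorem deg_u {m : ℕ} (G : SimpleGraph (V m)) : deg G (u m) = p G + A G (u m) (v m) := by
  simp [deg, p, Fintype.sum_sum_type, A_zero (G.irrefl (v := u m))]

theorem deg_v {m : ℕ} (G : SimpleGraph (V m)) : deg G (v m) = q G + A G (u m) (v m) := by
  simp [deg, q, Fintype.sum_sum_type, A_zero (G.irrefl (v := v m)), A_symm G (v m) (u m)]

theorem deg_w {m : ℕ} {G : SimpleGraph (V m)} (h : G ≤ K m 1 1) (w : Fin m) :
    deg G (Sum.inl w) = A G (u m) (Sum.inl w) + A G (v m) (Sum.inl w) := by
  have h0 : ∀ w' : Fin m, A G (Sum.inl w) (Sum.inl w') = 0 := fun w' =>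
    A_zero (fun hh => h hh rfl)
  rw [A_symm G (u m), A_symm G (v m)]
  simp [deg, Fintype.sum_sum_type, h0]

theorem total {m : ℕ} {G : SimpleGraph (V m)} (h : G ≤ K m 1 1) :
    ∑ x, deg G x = 2 * (p G + q G + A G (u m) (v m)) := by
  simp only [Fintype.sum_sum_type, Finset.univ_unique, Finset.sum_singleton, deg_w h,
    Finset.sum_add_distrib]
  have h1 := deg_u G
  have h2 := deg_v G
  have e1 : deg G (Sum.inr (Sum.inl default)) = deg G (u m) := rfl
  have e2 : deg G (Sum.inr (Sum.inr default)) = deg G (v m) := rfl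
  rw [e1, e2, h1, h2]
  unfold p q
  ring

theorem cases_V {m : ℕ} (x : V m) : (∃ w, x = Sum.inl w) ∨ x = u m ∨ x = v m := by
  rcases x with w | a | a
  · exact Or.inl ⟨w, rfl⟩
  · right; left; rw [Subsingleton.elim a 0]
  · right; right; rw [Subsingleton.elim a 0]

theorem necessity {m t : ℕ} (ht : 2 ≤ t) (h : Divisible (K m 1 1) t) :
    t = 2 * m + 1 ∨ 3 * t = 2 * m + 1 := by
  obtain ⟨F, hle, hun, hiso⟩ := h
  have hsum : ∀ a b, (K m 1 1).Adj a b → ∑ i, A (F i) a b = 1 := by
    intro a b hab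
    obtain ⟨i, hi, hu⟩ := hun a b hab
    rw [Finset.sum_eq_single i]
    · unfold A; simp [hi]
    · intro j _ hj
      exact A_zero (fun hh => hj (hu j hh))
    · simp
  have sp : ∑ i, p (F i) = m := by
    unfold p
    rw [Finset.sum_comm, Finset.sum_congr rfl (fun w _ => hsum _ _ (by simp [K, part]))]
    simp
  have sq : ∑ i, q (F i) = m := by
    unfold q
    rw [Finset.sum_comm, Finset.sum_congr rfl (fun w _ => hsum _ _ (by simp [K, part]))]
    simp
  have huv : (K m 1 1).Adj (u m) (v m) := by simp [K, part]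
  have sc := hsum _ _ huv
  obtain ⟨i0, hi0, hu0⟩ := hun _ _ huv
  have c0 : A (F i0) (u m) (v m) = 1 := by unfold A; simp [hi0]
  have cj : ∀ j, j ≠ i0 → A (F j) (u m) (v m) = 0 := fun j hj => A_zero (fun hh => hj (hu0 j hh))
  set e : ℤ := p (F i0) + q (F i0) + 1 with he
  have hej : ∀ j, p (F j) + q (F j) + A (F j) (u m) (v m) = e := by
    intro j
    obtain ⟨φ⟩ := hiso i0 j
    have h1 := total (hle j)
    have h2 := total (hle i0)
    have h3 : ∑ x, deg (F j) x = ∑ x, deg (F i0) x := by
      rw [← Equiv.sum_comp φ.toEquiv]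
      exact Finset.sum_congr rfl (fun x _ => deg_iso φ x)
    rw [c0] at h2
    omega
  have hte : (t : ℤ) * e = 2 * m + 1 := by
    have : ∑ j, (p (F j) + q (F j) + A (F j) (u m) (v m)) = ∑ _j : Fin t, e :=
      Finset.sum_congr rfl (fun j _ => hej j)
    simp only [Finset.sum_add_distrib, sp, sq, sc, Finset.sum_const, Finset.card_univ,
      Fintype.card_fin, nsmul_eq_mul] at this
    linarith
  have hwle : ∀ j w, deg (F j) (Sum.inl w) ≤ 2 := by
    intro j w
    have := A_le (F j) (u m) (Sum.inl w)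
    have := A_le (F j) (v m) (Sum.inl w)
    rw [deg_w (hle j)]; omega
  by_contra hcon
  have he5 : 5 ≤ e := by
    have hpos : 0 < e := by
      by_contra hh
      have : (t : ℤ) * e ≤ 0 := mul_nonpos_of_nonneg_of_nonpos (by positivity) (by omega)
      omega
    by_contra hh
    have : e = 1 ∨ e = 2 ∨ e = 3 ∨ e = 4 := by omega
    rcases this with h | h | h | h <;> rw [h] at hte <;> omega
  have big : ∀ x, 3 ≤ deg (F i0) x → ∀ j, j ≠ i0 →
      (2 * deg (F i0) x - e) ∣ p (F j) - q (F j) := by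
    intro x hx j hj
    obtain ⟨φ⟩ := hiso i0 j
    have h1 := deg_iso φ x
    have h2 := hej j
    rw [cj j hj] at h2
    rcases cases_V (φ x) with ⟨w, hw⟩ | hw | hw
    · have := hwle j w
      rw [hw] at h1; omega
    · rw [hw, deg_u, cj j hj] at h1
      exact ⟨1, by omega⟩
    · rw [hw, deg_v, cj j hj] at h1
      exact ⟨-1, by omega⟩
  have small : deg (F i0) (u m) ≤ 2 ∨ deg (F i0) (v m) ≤ 2 := by
    obtain ⟨j, hj⟩ : ∃ j : Fin t, j ≠ i0 := by
      haveI : Nontrivial (Fin t) := Fin.nontrivial_iff_two_le.mpr ht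
      exact exists_ne i0
    obtain ⟨φ⟩ := hiso i0 j
    have hadj : (F j).Adj (φ (u m)) (φ (v m)) := φ.map_rel_iff.mpr hi0
    have hn : ¬ (F j).Adj (u m) (v m) := fun hh => hj (hu0 j hh)
    rw [← deg_iso φ, ← deg_iso φ]
    rcases cases_V (φ (u m)) with ⟨w, hw⟩ | hw | hw
    · left; rw [hw]; exact hwle j w
    · rcases cases_V (φ (v m)) with ⟨w, hw'⟩ | hw' | hw'
      · right; rw [hw']; exact hwle j w
      · rw [hw, hw'] at hadj; exact absurd hadj (F j).irrefl
      · rw [hw, hw'] at hadj; exact absurd hadj hn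
    · rcases cases_V (φ (v m)) with ⟨w, hw'⟩ | hw' | hw'
      · right; rw [hw']; exact hwle j w
      · rw [hw, hw'] at hadj; exact absurd hadj.symm hn
      · rw [hw, hw'] at hadj; exact absurd hadj (F j).irrefl
  have du := deg_u (F i0)
  have dv := deg_v (F i0)
  rw [c0] at du dv
  rcases small with hs | hs
  · have hd : (2 * deg (F i0) (v m) - e) ∣
        ∑ j, (p (F j) - q (F j) - A (F j) (u m) (v m)) := by
      apply Finset.dvd_sum
      intro j _
      by_cases hj : j = i0
      · subst hj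
        rw [c0]; exact ⟨-1, by omega⟩
      · rw [cj j hj, sub_zero]; exact big _ (by omega) j hj
    simp only [Finset.sum_sub_distrib, sp, sq, sc, sub_self, zero_sub, dvd_neg] at hd
    have := Int.le_of_dvd (by norm_num) hd
    omega
  · have hd : (2 * deg (F i0) (u m) - e) ∣
        ∑ j, (p (F j) - q (F j) + A (F j) (u m) (v m)) := by
      apply Finset.dvd_sum
      intro j _
      by_cases hj : j = i0
      · subst hj
        rw [c0]; exact ⟨1, by omega⟩
      · rw [cj j hj, add_zero]; exact big _ (by omega) j hj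
    simp only [Finset.sum_add_distrib, Finset.sum_sub_distrib, sp, sq, sc, sub_self,
      zero_add] at hd
    have := Int.le_of_dvd (by norm_num) hd
    omega

def code {m : ℕ} : V m → ℕ
  | Sum.inl w => w.val + 2
  | Sum.inr (Sum.inl _) => 0
  | Sum.inr (Sum.inr _) => 1

def dec (m n : ℕ) : V m :=
  if n = 0 then u m else if h : 2 ≤ n ∧ n < m + 2 then Sum.inl ⟨n - 2, by omega⟩ else v m

theorem code_dec {m n : ℕ} (h : n < m + 2) : code (dec m n) = n := by
  unfold dec
  split_ifs with h1 h2
  · simp [code, h1]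
  · simp only [code]; omega
  · simp only [code]; omega

theorem code_inj {m : ℕ} {x y : V m} (h : code x = code y) : x = y := by
  rcases cases_V x with ⟨w, rfl⟩ | rfl | rfl <;> rcases cases_V y with ⟨w', rfl⟩ | rfl | rfl <;>
    simp only [code] at h <;> first | rfl | omega | skip
  congr 1
  exact Fin.ext (by omega)

theorem code_lt {m : ℕ} (x : V m) : code x < m + 2 := by
  rcases cases_V x with ⟨w, rfl⟩ | rfl | rfl <;> simp only [code] <;> omega

theorem K_adj {m : ℕ} (x y : V m) :
    (K m 1 1).Adj x y ↔ code x ≠ code y ∧ (code x < 2 ∨ code y < 2) := by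
  rcases cases_V x with ⟨w, rfl⟩ | rfl | rfl <;> rcases cases_V y with ⟨w', rfl⟩ | rfl | rfl <;>
    simp [K, part, code]

def R {k : ℕ} (g : Fin k → ℕ) (a b : ℕ) : Prop :=
  ∃ x y : Fin k, y.val = x.val + 1 ∧ a = g x ∧ b = g y

theorem build {m t k : ℕ} (f : Fin t → Fin k → ℕ) (hlt : ∀ i x, f i x < m + 2)
    (hinj : ∀ i, Function.Injective (f i))
    (hle : ∀ i a b, R (f i) a b → a < 2 ∨ b < 2)
    (hun : ∀ a b, a < 2 → b < m + 2 → a ≠ b → ∃! i, R (f i) a b ∨ R (f i) b a) :
    Divisible (K m 1 1) t := by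
  refine ⟨fun i => SimpleGraph.fromRel (fun x y => R (f i) (code x) (code y)), ?_, ?_, ?_⟩
  · intro i x y h
    rw [SimpleGraph.fromRel_adj] at h
    rw [K_adj]
    refine ⟨fun hh => h.1 (code_inj hh), ?_⟩
    rcases h.2 with h2 | h2
    · exact hle i _ _ h2
    · exact (hle i _ _ h2).symm
  · intro x y h
    have hne : x ≠ y := h.ne
    rw [K_adj] at h
    simp only [SimpleGraph.fromRel_adj, ne_eq, hne, not_false_eq_true, true_and]
    rcases h.2 with h2 | h2
    · exact hun _ _ h2 (code_lt y) h.1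
    · simpa only [or_comm] using hun _ _ h2 (code_lt x) h.1.symm
  · intro i j
    have inj : ∀ i, Function.Injective (fun x => dec m (f i x)) := by
      intro i x y h
      apply hinj i
      have := congrArg code h
      rwa [code_dec (hlt i x), code_dec (hlt i y)] at this
    obtain ⟨σ, hσ⟩ := Equiv.Perm.exists_extending_pair _ _ (inj i) (inj j)
    have key : ∀ (z : V m) (x : Fin k), code (σ z) = f j x ↔ code z = f i x := by
      intro z x
      constructor
      · intro h
        have : σ z = σ (dec m (f i x)) := by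
          rw [hσ x]; apply code_inj; rw [h, code_dec (hlt j x)]
        rw [σ.injective this, code_dec (hlt i x)]
      · intro h
        have : z = dec m (f i x) := by apply code_inj; rw [h, code_dec (hlt i x)]
        rw [this, hσ x, code_dec (hlt j x)]
    refine ⟨⟨σ, ?_⟩⟩
    intro a b
    simp only [SimpleGraph.fromRel_adj, R, key, ne_eq, σ.injective.eq_iff]

theorem R2 (a b x y : ℕ) : R ![a, b] x y ↔ x = a ∧ y = b := by
  simp [R, Fin.exists_fin_succ]

theorem R4 (a b c d x y : ℕ) :
    R ![a, b, c, d] x y ↔ (x = a ∧ y = b) ∨ (x = b ∧ y = c) ∨ (x = c ∧ y = d) := by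
  simp [R, Fin.exists_fin_succ]

theorem single (m : ℕ) : Divisible (K m 1 1) (2 * m + 1) := by
  apply build (k := 2) (fun i => ![if i.val = 2 * m then 0 else i.val % 2,
    if i.val = 2 * m then 1 else i.val / 2 + 2])
  · intro i x
    have := i.isLt
    fin_cases x <;> simp <;> split_ifs <;> omega
  · intro i x y h
    fin_cases x <;> fin_cases y <;> simp at h ⊢ <;> split_ifs at h <;> omega
  · intro i a b h
    rw [R2] at h
    split_ifs at h <;> omega
  · intro a b ha hb hab
    simp only [R2]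
    refine ⟨⟨if b < 2 then 2 * m else 2 * (b - 2) + a, by split_ifs <;> omega⟩, ?_, ?_⟩
    · simp only
      split_ifs <;> omega
    · intro i hi
      have := i.isLt
      apply Fin.ext
      simp only
      split_ifs at hi ⊢ <;> omega

theorem paths (k : ℕ) (hk : 1 ≤ k) : Divisible (K (3 * k + 1) 1 1) (2 * k + 1) := by
  apply build (k := 4) (fun i => ![
    if i.val = 2 * k then 3 else if i.val = 0 then 2 else 3 * (i.val / 2) + 3,
    if i.val = 2 * k then 0 else i.val % 2,
    if i.val = 2 * k then 1 else 3 * (i.val / 2) + 4 + i.val % 2,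
    if i.val = 2 * k then 2 else 1 - i.val % 2])
  · intro i x
    have := i.isLt
    fin_cases x <;> simp <;> split_ifs <;> omega
  · intro i x y h
    fin_cases x <;> fin_cases y <;> simp at h ⊢ <;> split_ifs at h <;> omega
  · intro i a b h
    rw [R4] at h
    split_ifs at h <;> omega
  · intro a b ha hb hab
    simp only [R4]
    refine ⟨⟨if b < 2 then 2 * k else if b = 2 then (if a = 0 then 0 else 2 * k)
      else if b = 3 then (if a = 0 then 2 * k else 1)
      else if b % 3 = 0 then 2 * (b / 3 - 1) + a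
      else if b % 3 = 1 then 2 * (b / 3 - 1) else 2 * (b / 3 - 1) + 1,
      by split_ifs <;> omega⟩, ?_, ?_⟩
    · simp only
      split_ifs <;> first | omega | contradiction
    · intro i hi
      have := i.isLt
      apply Fin.ext
      simp only
      split_ifs at hi ⊢ <;> omega

theorem result (m t : ℕ) (ht : 2 ≤ t) :
    Divisible (K m 1 1) t ↔ (t = 2 * m + 1 ∨ 3 * t = 2 * m + 1) := by
  refine ⟨necessity ht, ?_⟩
  rintro (h | h)
  · rw [h]; exact single m
  · obtain ⟨k, rfl⟩ : ∃ k, m = 3 * k + 1 := ⟨m / 3, by omega⟩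
    obtain rfl : t = 2 * k + 1 := by omega
    exact paths k (by omega)

end Pool.Agent.Results.MP_351560_co.Book
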